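import Pool.Agent.Run7.h334.Points

/-!
# Local constancy of the number of R-equivalence classes for conic bundles over the line

`k` is a `p`-adic field, `ι` a finite set.  A tuple `C : Coeffs k ι a e` consists, for each
`l : ι`, of a `3 × 3` matrix of binary forms `C l i j` of degree `a l i + a l j + e l` with
coefficients in `k`.  It defines the variety `X_C` of all `(x, (z_l))` with `x` in the projective
line and `z_l` in the plane bundle with weights `a l`, such that
`∑ i j, C l i j (x) z_l i z_l j = 0` for all `l`: a fibre product over the projective line of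
conic bundles.  `Pt C` are the homogeneous coordinates of the `k`-points of `X_C`, `Link C` is the
relation of being directly R-linked, and `RClasses C` is `X_C(k)/R`.
-/

open Run7.h334 Polynomial Filter Topology

namespace Pool.Agent.Results.MP_ae2b67_ag.ConicBundles

/-- `X_C` is smooth of the expected dimension: Jacobian criterion at all geometric points. -/
def Smooth {k : Type*} [Field k] {ι : Type*} {a : ι → Fin 3 → ℕ} {e : ι → ℕ}
    (C : Coeffs k ι a e) : Prop :=
  SmoothOver (AlgebraicClosure k) C

/-- For a `p`-adic field `k`, the number of R-equivalence classes of `X_C(k)` is a locally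
constant function of `C`, as long as `X_C` is smooth. -/
theorem result (p : ℕ) [Fact p.Prime] (k : Type*) [NormedField k] [NormedAlgebra ℚ_[p] k]
    [FiniteDimensional ℚ_[p] k] (ι : Type*) [Finite ι] (a : ι → Fin 3 → ℕ) (e : ι → ℕ) :
    IsLocallyConstant
      (fun C : {C : Coeffs k ι a e // Smooth C} => Cardinal.mk (RClasses C.1)) := by
  classical
  have := Fintype.ofFinite ι
  have hult : IsUltrametricDist k := IsUltrametricDist.of_normedAlgebra ℚ_[p]
  have hproper : ProperSpace k := FiniteDimensional.proper ℚ_[p] k
  have hchar : CharZero k := charZero_of_injective_algebraMap (algebraMap ℚ_[p] k).injective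
  letI : NontriviallyNormedField k :=
    { (inferInstance : NormedField k) with
      non_trivial := by
        obtain ⟨x, hx⟩ := NormedField.exists_one_lt_norm ℚ_[p]
        exact ⟨algebraMap ℚ_[p] k x, by rw [norm_algebraMap']; exact hx⟩ }
  have hcomplete : CompleteSpace k := FiniteDimensional.complete ℚ_[p] k
  letI : NormedField (AlgebraicClosure k) := spectralNorm.normedField k (AlgebraicClosure k)
  letI : NormedAlgebra k (AlgebraicClosure k) :=
    spectralNorm.normedAlgebra k (AlgebraicClosure k)
  have hult' : IsUltrametricDist (AlgebraicClosure k) := IsUltrametricDist.of_normedAlgebra k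
  have hiso : ∀ (σ : AlgebraicClosure k ≃ₐ[k] AlgebraicClosure k) (x : AlgebraicClosure k),
      ‖σ x‖ = ‖x‖ := fun σ x => (spectralNorm_eq_of_equiv σ x).symm
  rw [IsLocallyConstant.iff_eventually_eq]
  intro C₀
  have hG : Good (AlgebraicClosure k) C₀.1 := good_of_smooth C₀.2
  have key := classes_theorem (Ω := AlgebraicClosure k) hiso hG
  have h2 : Tendsto (fun C : {C : Coeffs k ι a e // Smooth C} => C.1) (𝓝 C₀) (𝓝 C₀.1) :=
    continuous_subtype_val.tendsto C₀
  filter_upwards [h2.eventually key] with C hC
  obtain ⟨E⟩ := hC
  obtain ⟨E₀⟩ := RClasses_equiv C₀.1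
  obtain ⟨E₁⟩ := RClasses_equiv C.1
  exact Cardinal.mk_congr (E₁.trans (E.symm.trans E₀.symm))

end Pool.Agent.Results.MP_ae2b67_ag.ConicBundles
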